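import Mathlib

set_option autoImplicit false

/-!
# Locally sparse 3-graphs: definitions
-/

open Finset

namespace Pool.Agent.T2H11.BT

/-- a 3-graph is a set of triples -/
def ThreeGraph {V : Type} (H : Finset (Finset V)) : Prop := ∀ e ∈ H, e.card = 3

/-- every set of at most `s + 3` vertices contains fewer than `s` edges -/
def Sparse {V : Type} [DecidableEq V] (s : ℕ) (H : Finset (Finset V)) : Prop :=
  ∀ W : Finset V, W.card ≤ s + 3 → (H.filter (· ⊆ W)).card < s

end Pool.Agent.T2H11.BT
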