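import Pool.Agent.T2H11.BT.Defs
import Pool.Agent.T2H11.HT.Defs
import Pool.Agent.T2H11.TW.Basic

set_option autoImplicit false

/-!
# Locally sparse 3-graphs of bounded twin-width
-/

open Finset

namespace Pool.Agent.T2H11.BT

open Pool.Agent.T2H11.TW (IsPart seq_part)
open Pool.Agent.T2H11.HT (SameProfile Clear TwwLe)

variable {V : Type} [DecidableEq V] {H : Finset (Finset V)} {s : ℕ}

/-- codegrees are less than `s` -/
lemma codeg (h3 : ThreeGraph H) (hs : Sparse s H) {u v : V} (huv : u ≠ v) :
    (H.filter (fun e => u ∈ e ∧ v ∈ e)).card < s := by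
  by_contra hcon
  push Not at hcon
  obtain ⟨T, hT, hTc⟩ := exists_subset_card_eq hcon
  have hTm : ∀ e ∈ T, e ∈ H ∧ u ∈ e ∧ v ∈ e := fun e he => by
    have := hT he
    rwa [mem_filter] at this
  have hW : (T.biUnion id).card ≤ s + 3 := by
    have h1 : T.biUnion id ⊆ T.biUnion (fun e => (e.erase u).erase v) ∪ {u, v} := by
      intro w hw
      rw [mem_biUnion] at hw
      obtain ⟨e, he, hwe⟩ := hw
      rw [mem_union, mem_biUnion]
      by_cases hwu : w = u
      · right; rw [hwu]; simp
      by_cases hwv : w = v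
      · right; rw [hwv]; simp
      · left
        exact ⟨e, he, mem_erase.2 ⟨hwv, mem_erase.2 ⟨hwu, hwe⟩⟩⟩
    have h2 : (T.biUnion (fun e => (e.erase u).erase v)).card ≤ T.card * 1 := by
      refine card_biUnion_le_card_mul _ _ _ fun e he => ?_
      obtain ⟨h5, h6, h7⟩ := hTm e he
      rw [card_erase_of_mem (mem_erase.2 ⟨huv.symm, h7⟩), card_erase_of_mem h6, h3 e h5]
    have h4 := (card_le_card h1).trans (card_union_le _ _)
    have h5 : ({u, v} : Finset V).card ≤ 2 := card_le_two
    omega
  have h6 := hs _ hW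
  have h7 : T ⊆ H.filter (· ⊆ T.biUnion id) := by
    intro e he
    rw [mem_filter]
    exact ⟨(hTm e he).1, fun w hw => mem_biUnion.2 ⟨e, he, hw⟩⟩
  have h8 := card_le_card h7
  omega

/-- degrees inside a set -/
lemma deg_in (h3 : ThreeGraph H) (hs : Sparse s H) (v : V) (N : Finset V) :
    2 * (H.filter (fun e => v ∈ e ∧ e ⊆ N)).card ≤ N.card * (s - 1) := by
  have h1 : ∑ e ∈ H.filter (fun e => v ∈ e ∧ e ⊆ N), (e.erase v).card =
      2 * (H.filter (fun e => v ∈ e ∧ e ⊆ N)).card := by
    rw [mul_comm, ← smul_eq_mul, ← sum_const]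
    refine sum_congr rfl fun e he => ?_
    rw [mem_filter] at he
    rw [card_erase_of_mem he.2.1, h3 e he.1]
  have h2 : ∑ e ∈ H.filter (fun e => v ∈ e ∧ e ⊆ N), (e.erase v).card =
      ∑ u ∈ N.erase v, ((H.filter (fun e => v ∈ e ∧ e ⊆ N)).filter (fun e => u ∈ e)).card := by
    simp only [card_filter _ (H.filter (fun e => v ∈ e ∧ e ⊆ N))]
    rw [sum_comm]
    refine sum_congr rfl fun e he => ?_
    rw [mem_filter] at he
    rw [← card_filter]
    congr 1
    ext u
    rw [mem_filter, mem_erase, mem_erase]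
    constructor
    · rintro ⟨h5, h6⟩
      exact ⟨⟨h5, he.2.2 h6⟩, h6⟩
    · rintro ⟨⟨h5, -⟩, h6⟩
      exact ⟨h5, h6⟩
  rw [← h1, h2]
  calc ∑ u ∈ N.erase v, ((H.filter (fun e => v ∈ e ∧ e ⊆ N)).filter (fun e => u ∈ e)).card
      ≤ ∑ u ∈ N.erase v, (s - 1) := by
        refine sum_le_sum fun u hu => ?_
        rw [mem_erase] at hu
        have h4 := codeg h3 hs hu.1
        have h5 : (H.filter (fun e => v ∈ e ∧ e ⊆ N)).filter (fun e => u ∈ e) ⊆
            H.filter (fun e => u ∈ e ∧ v ∈ e) := by
          intro e he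
          simp only [mem_filter] at he ⊢
          exact ⟨he.1.1, he.2, he.1.2.1⟩
        have h6 := card_le_card h5
        omega
    _ = (N.erase v).card * (s - 1) := by rw [sum_const, smul_eq_mul]
    _ ≤ N.card * (s - 1) := Nat.mul_le_mul_right _ (card_le_card (erase_subset _ _))

/-- a part with at least `s` vertices is red to every other part which it meets in an edge -/
lemma not_clear (h3 : ThreeGraph H) (hs : Sparse s H) (hs3 : 3 ≤ s) {Q : Finset (Finset V)}
    (hQ : IsPart Q) {Z B : Finset V} (hZ : Z ∈ Q) (hB : B ∈ Q) (hZB : B ≠ Z) (hZs : s ≤ Z.card)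
    {e : Finset V} (he : e ∈ H) (heZ : (e ∩ Z).Nonempty) (heB : (e ∩ B).Nonempty) :
    ¬ Clear 3 (fun e => e ∈ H) Q Z B := by
  intro hcl
  have hd := hQ.disj Z hZ B hB (Ne.symm hZB)
  have hec := h3 e he
  -- same profile
  have hprof : ∀ f : Finset V, f \ Z = e \ Z → (f ∩ Z).card = (e ∩ Z).card → f ∈ H := by
    intro f hf1 hf2
    have hfc : f.card = 3 := by
      rw [← hec, ← card_sdiff_add_card_inter f Z, ← card_sdiff_add_card_inter e Z, hf1, hf2]
    have hp : SameProfile Q e f := by
      intro D hD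
      by_cases hDZ : D = Z
      · rw [hDZ, hf2]
      · have hdD := hQ.disj D hD Z hZ hDZ
        have key : ∀ g : Finset V, g ∩ D = (g \ Z) ∩ D := by
          intro g
          ext x
          simp only [mem_inter, mem_sdiff]
          constructor
          · rintro ⟨h5, h6⟩
            exact ⟨⟨h5, Finset.disjoint_left.1 hdD h6⟩, h6⟩
          · rintro ⟨⟨h5, -⟩, h6⟩
            exact ⟨h5, h6⟩
        rw [key e, key f, hf1]
    have h5 := hcl e f hec hfc heZ heB hp
    exact h5.mp he
  obtain ⟨T, hT, hTc⟩ := exists_subset_card_eq hZs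
  -- the number of vertices in `Z`
  have hsum := card_sdiff_add_card_inter e Z
  have h1 : 1 ≤ (e ∩ Z).card := card_pos.2 heZ
  have h2 : 1 ≤ (e \ Z).card := by
    obtain ⟨b, hb⟩ := heB
    rw [mem_inter] at hb
    refine card_pos.2 ⟨b, mem_sdiff.2 ⟨hb.1, fun hbZ => Finset.disjoint_left.1 hd hbZ hb.2⟩⟩
  have hout : ∀ R : Finset V, R ⊆ T → (R ∪ (e \ Z)) \ Z = e \ Z ∧ (R ∪ (e \ Z)) ∩ Z = R := by
    intro R hR
    constructor
    · ext x
      simp only [mem_sdiff, mem_union]
      constructor
      · rintro ⟨h5 | h5, h6⟩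
        · exact absurd (hT (hR h5)) h6
        · exact h5
      · rintro ⟨h5, h6⟩
        exact ⟨Or.inr ⟨h5, h6⟩, h6⟩
    · ext x
      simp only [mem_inter, mem_union, mem_sdiff]
      constructor
      · rintro ⟨h5 | ⟨-, h5⟩, h6⟩
        · exact h5
        · exact absurd h6 h5
      · intro h5
        exact ⟨Or.inl h5, hT (hR h5)⟩
  -- the edges
  have hW : (T ∪ (e \ Z)).card ≤ s + 3 := by
    have := card_union_le T (e \ Z)
    omega
  have h5 := hs _ hW
  have h6 : (T.powersetCard (e ∩ Z).card).image (fun R => R ∪ (e \ Z)) ⊆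
      H.filter (· ⊆ T ∪ (e \ Z)) := by
    intro f hf
    obtain ⟨R, hR, rfl⟩ := mem_image.1 hf
    rw [mem_powersetCard] at hR
    obtain ⟨k1, k2⟩ := hout R hR.1
    rw [mem_filter]
    exact ⟨hprof _ k1 (by rw [k2]; exact hR.2), union_subset_union_left hR.1⟩
  have h7 : ((T.powersetCard (e ∩ Z).card).image (fun R => R ∪ (e \ Z))).card =
      T.card.choose (e ∩ Z).card := by
    rw [card_image_of_injOn, card_powersetCard]
    intro R hR R' hR' heq
    rw [mem_coe, mem_powersetCard] at hR hR'
    have heq' : R ∪ (e \ Z) = R' ∪ (e \ Z) := heq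
    rw [← (hout R hR.1).2, ← (hout R' hR'.1).2, heq']
  have h8 := card_le_card h6
  rw [h7, hTc] at h8
  have h9 : s ≤ s.choose (e ∩ Z).card := by
    have h10 : (e ∩ Z).card = 1 ∨ (e ∩ Z).card = 2 := by omega
    rcases h10 with h10 | h10
    · rw [h10, Nat.choose_one_right]
    · rw [h10, Nat.choose_two_right]
      have : 2 * s ≤ s * (s - 1) := by
        rw [mul_comm]
        exact Nat.mul_le_mul_left s (by omega)
      omega
  omega

/-- **Locally sparse 3-graphs of bounded twin-width have linearly many edges.** -/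
theorem edges_le [Fintype V] {t : ℕ} (h3 : ThreeGraph H) (hs : Sparse s H) (hs3 : 3 ≤ s)
    (ht : TwwLe 3 (fun e => e ∈ H) t) :
    2 * H.card ≤ (s - 1) ^ 2 * (t + 2) * Fintype.card V := by
  classical
  by_cases hns : Fintype.card V < s
  · -- few vertices
    have h1 : H.filter (· ⊆ univ) = H := filter_true_of_mem fun e _ => subset_univ e
    have h2 := hs univ (by rw [card_univ]; omega)
    rw [h1] at h2
    rcases Nat.eq_zero_or_pos H.card with h4 | h4
    · rw [h4]; omega
    · obtain ⟨e, he⟩ := card_pos.1 h4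
      have h5 : e.card ≤ Fintype.card V := card_le_univ e
      rw [h3 e he] at h5
      have h6 : s - 1 ≤ (s - 1) ^ 2 := Nat.le_self_pow (by norm_num) _
      calc 2 * H.card ≤ (s - 1) * 2 * 1 := by omega
        _ ≤ (s - 1) ^ 2 * (t + 2) * Fintype.card V :=
          Nat.mul_le_mul (Nat.mul_le_mul h6 (by omega)) (by omega)
  push Not at hns
  obtain ⟨P, h0, hst, hr⟩ := ht
  have hpart := seq_part h0 hst
  set n := Fintype.card V with hnV
  -- the time when the part of `v` becomes large
  have hex : ∀ v : V, ∃ i, i < n ∧ ∃ A ∈ P i, v ∈ A ∧ s ≤ A.card := by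
    intro v
    refine ⟨n - 1, by omega, ?_⟩
    obtain ⟨hp, hc⟩ := hpart (n - 1) (by omega)
    have hc1 : (P (n - 1)).card = 1 := by omega
    obtain ⟨A, hA⟩ := card_eq_one.1 hc1
    have hAu : A = univ := by
      ext v
      simp only [mem_univ, iff_true]
      obtain ⟨B, hB, hv⟩ := hp.cover v
      rw [hA, mem_singleton] at hB
      rwa [← hB]
    exact ⟨A, by rw [hA]; simp, by rw [hAu]; simp, by rw [hAu, card_univ]; exact hns⟩
  set τ : V → ℕ := fun v => Nat.find (hex v) with hτ
  -- the neighbourhood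
  have hN : ∀ v : V, ∃ N : Finset V, N.card ≤ (t + 2) * (s - 1) ∧
      ∀ e ∈ H, v ∈ e → (∀ u ∈ e, τ v ≤ τ u) → e ⊆ N := by
    intro v
    obtain ⟨hin, Z, hZ, hvZ, hZs⟩ := Nat.find_spec (hex v)
    have hτv : Nat.find (hex v) = τ v := rfl
    rw [hτv] at hin hZ
    obtain ⟨hp, -⟩ := hpart (τ v) hin
    have hpos : 0 < τ v := by
      by_contra hcon
      have h0' : τ v = 0 := by omega
      rw [h0', h0] at hZ
      obtain ⟨w, -, rfl⟩ := mem_image.1 hZ
      rw [card_singleton] at hZs
      omega
    obtain ⟨j, hj⟩ : ∃ j, τ v = j + 1 := ⟨τ v - 1, by omega⟩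
    obtain ⟨X, hX, Y, hY, hXY, hm⟩ := hst j (by omega)
    obtain ⟨hpj, -⟩ := hpart j (by omega)
    rw [hj] at hZ hin hp
    -- `Z` is the new part
    have hZe : Z = X ∪ Y := by
      by_contra hne
      rw [hm, mem_insert] at hZ
      rcases hZ with hZ | hZ
      · exact hne hZ
      · simp only [mem_erase] at hZ
        have := Nat.find_min' (hex v) ⟨by omega, Z, hZ.2.2, hvZ, hZs⟩
        have : τ v ≤ j := this
        omega
    set F := (P (j + 1)).filter (fun B => B ≠ Z ∧ ¬ Clear 3 (fun e => e ∈ H) (P (j + 1)) Z B)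
      with hF
    have hFc : F.card ≤ t := hr (j + 1) hin Z hZ
    set X' : Finset V := if X.card < s then X else ∅ with hX'
    set Y' : Finset V := if Y.card < s then Y else ∅ with hY'
    have hX'c : X'.card ≤ s - 1 := by
      rw [hX']; split_ifs with h
      · omega
      · simp
    have hY'c : Y'.card ≤ s - 1 := by
      rw [hY']; split_ifs with h
      · omega
      · simp
    refine ⟨(X' ∪ Y') ∪ (F.filter (fun B => B.card < s)).biUnion id, ?_, ?_⟩
    · have h5 : ((F.filter (fun B => B.card < s)).biUnion id).card ≤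
          (F.filter (fun B => B.card < s)).card * (s - 1) := by
        refine card_biUnion_le_card_mul _ _ _ fun B hB => ?_
        rw [mem_filter] at hB
        simp only [id]
        omega
      have h6 : (F.filter (fun B => B.card < s)).card ≤ t := (card_filter_le _ _).trans hFc
      have h7 := card_union_le X' Y'
      have h8 := card_union_le (X' ∪ Y') ((F.filter (fun B => B.card < s)).biUnion id)
      have h9 : (F.filter (fun B => B.card < s)).card * (s - 1) ≤ t * (s - 1) :=
        Nat.mul_le_mul_right _ h6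
      have h10 : (t + 2) * (s - 1) = t * (s - 1) + 2 * (s - 1) := by ring
      omega
    · intro e he hve hmin u hu
      have hu' := hmin u hu
      -- before the time `τ v` the part of `u` is small
      have hsm : ∀ B ∈ P j, u ∈ B → B.card < s := by
        intro B hB huB
        by_contra hcon
        push Not at hcon
        have := Nat.find_min' (hex u) ⟨by omega, B, hB, huB, hcon⟩
        have : τ u ≤ j := this
        omega
      obtain ⟨B, hB, huB⟩ := hp.cover u
      by_cases hBZ : B = Z
      · rw [mem_union]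
        left
        rw [hBZ, hZe, mem_union] at huB
        rw [mem_union]
        rcases huB with h | h
        · left
          rw [hX', if_pos (hsm X hX h)]
          exact h
        · right
          rw [hY', if_pos (hsm Y hY h)]
          exact h
      · rw [mem_union]
        right
        have hBj : B ∈ P j := by
          rw [hm, mem_insert] at hB
          rcases hB with h | h
          · exact absurd (h.trans hZe.symm) hBZ
          · simp only [mem_erase] at h
            exact h.2.2
        have hBs := hsm B hBj huB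
        have hred := not_clear h3 hs hs3 hp hZ hB hBZ hZs he ⟨v, mem_inter.2 ⟨hve, hvZ⟩⟩
          ⟨u, mem_inter.2 ⟨hu, huB⟩⟩
        rw [mem_biUnion]
        refine ⟨B, ?_, huB⟩
        rw [mem_filter, hF, mem_filter]
        exact ⟨⟨hB, hBZ, hred⟩, hBs⟩
  choose N hNc hNe using hN
  -- counting
  have hcover : H ⊆ (univ : Finset V).biUnion (fun v => H.filter (fun e => v ∈ e ∧ e ⊆ N v)) := by
    intro e he
    have hne : e.Nonempty := by rw [← card_pos, h3 e he]; norm_num
    obtain ⟨v, hv, hvmin⟩ := exists_min_image e τ hne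
    rw [mem_biUnion]
    exact ⟨v, mem_univ v, mem_filter.2 ⟨he, hv, hNe v e he hv hvmin⟩⟩
  have h1 := (card_le_card hcover).trans card_biUnion_le
  have h2 : ∑ v : V, 2 * (H.filter (fun e => v ∈ e ∧ e ⊆ N v)).card ≤
      ∑ _v : V, (s - 1) ^ 2 * (t + 2) := by
    refine sum_le_sum fun v _ => ?_
    refine (deg_in h3 hs v (N v)).trans ?_
    calc (N v).card * (s - 1) ≤ ((t + 2) * (s - 1)) * (s - 1) := Nat.mul_le_mul_right _ (hNc v)
      _ = (s - 1) ^ 2 * (t + 2) := by ring
  rw [← mul_sum, sum_const, card_univ, smul_eq_mul] at h2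
  calc 2 * H.card ≤ 2 * ∑ v : V, (H.filter (fun e => v ∈ e ∧ e ⊆ N v)).card := by omega
    _ ≤ Fintype.card V * ((s - 1) ^ 2 * (t + 2)) := h2
    _ = (s - 1) ^ 2 * (t + 2) * n := by rw [hnV]; ring

end Pool.Agent.T2H11.BT
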